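import Pool.Agent.Q180.FI.Transfer

/-!
# Q1 and the ground field

The growth rate of the smoothability defect of a finite scheme `Γ` over an algebraically closed field is invariant under
extension of the field; for each degree the statement Q1 depends only on the characteristic; in characteristic zero it is
equivalent to a uniform statement for algebraically closed fields of large characteristic.
-/

set_option autoImplicit false

namespace Pool.Agent.Results.MP_44217d_ag.FieldIndependence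

open scoped TensorProduct
open Pool.Agent.H826R3.SM Pool.Agent.TH671.DU Pool.Agent.Q180 Filter

/-- Q1 holds for all finite schemes of degree `d` over `k`. -/
def QDegree (k : Type) [Field k] (d : ℕ) : Prop :=
  ∀ (A : Type) [CommRing A] [Algebra k A] [Module.Finite k A] [Nontrivial A],
    Module.finrank k A = d → QOne k A

/-- All finite schemes of degree `d` over `k` have growth rate at most `x`. -/
def RateLe (k : Type) [Field k] (d : ℕ) (x : ℝ) : Prop :=
  ∀ (A : Type) [CommRing A] [Algebra k A] [Module.Finite k A] [Nontrivial A],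
    Module.finrank k A = d → rate k A ≤ x

/-- All local finite schemes of degree `d` over `k` have growth rate at most `x`. -/
def LocalRateLe (k : Type) [Field k] (d : ℕ) (x : ℝ) : Prop :=
  ∀ (A : Type) [CommRing A] [Algebra k A] [Module.Finite k A] [IsLocalRing A],
    Module.finrank k A = d → rate k A ≤ x

/-- For every local finite scheme `Γ` of degree `d` over `k` there is an `n` with `1 ≤ n ≤ N` and
`d ^ n + δ(Γ^n) ≤ x ^ n`. -/
def PowerLe (k : Type) [Field k] (d : ℕ) (x : ℝ) (N : ℕ) : Prop :=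
  ∀ (A : Type) [CommRing A] [Algebra k A] [Module.Finite k A] [IsLocalRing A],
    Module.finrank k A = d → ∃ n : ℕ, 1 ≤ n ∧ n ≤ N ∧ (d : ℝ) ^ n + defect k (Pow k A n) ≤ x ^ n

/-- The basis `v` of `A` begins with `1`, and `c` are the structure constants. -/
def IntStructure {m : ℕ} (c : Fin (m + 1) → Fin (m + 1) → Fin (m + 1) → ℤ) (k : Type) [Field k]
    (A : Type) [CommRing A] [Algebra k A] (v : Module.Basis (Fin (m + 1)) k A) : Prop :=
  v 0 = 1 ∧ ∀ i j, v i * v j = ∑ l, (c i j l : k) • v l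

section lemmas

variable {k : Type} [Field k] [IsAlgClosed k]

theorem qDegree_iff (d : ℕ) : QDegree k d ↔ RateLe k d d := by
  constructor
  · intro h A _ _ _ _ hA
    rw [← hA]
    exact ((qOne_iff_rate (k := k) A).1 (h A hA)).le
  · intro h A _ _ _ _ hA
    rw [qOne_iff_rate]
    have h1 := h A hA
    rw [← hA] at h1
    exact le_antisymm h1 (finrank_le_rate A)

theorem powerLe_iff (m : ℕ) (x : ℝ) (N : ℕ) : PowerLe k (m + 1) x N ↔ FI.Bnd k m x N := by
  unfold PowerLe FI.Bnd
  refine forall_congr' fun A => forall_congr' fun _ => forall_congr' fun _ =>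
    forall_congr' fun _ => forall_congr' fun _ => forall_congr' fun hA => ?_
  refine exists_congr fun n => and_congr_right fun _ => and_congr_right fun _ => ?_
  rw [← hA, SC.finrank_add_eq A n]

omit [IsAlgClosed k] in
theorem PowerLe.mono {d : ℕ} {x : ℝ} {N N' : ℕ} (h : PowerLe k d x N) (hN : N ≤ N') :
    PowerLe k d x N' := by
  intro A _ _ _ _ hA
  obtain ⟨n, h1, h2, h3⟩ := h A hA
  exact ⟨n, h1, h2.trans hN, h3⟩

omit [IsAlgClosed k] in
theorem powerLe_zero (x : ℝ) (N : ℕ) : PowerLe k 0 x N := by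
  intro A _ _ _ _ hA
  have h1 : 0 < Module.finrank k A := Module.finrank_pos
  omega

/-- local algebras suffice -/
theorem rate_le_of_local (d : ℕ) (h : ∀ d' ≤ d, LocalRateLe k d' d') :
    ∀ (A : Type) [CommRing A] [Algebra k A] [Module.Finite k A] [Nontrivial A],
      Module.finrank k A ≤ d → rate k A ≤ Module.finrank k A := by
  refine FI.finite_induction (K := k) (fun A _ _ => Module.finrank k A ≤ d →
    rate k A ≤ Module.finrank k A) ?_ ?_ ?_
  · intro A B _ _ _ _ _ _ e hA hB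
    rw [← e.toLinearEquiv.finrank_eq, ← SC.rate_congr e]
    rw [← e.toLinearEquiv.finrank_eq] at hB
    exact hA hB
  · intro A _ _ _ _ hA
    exact h _ hA A rfl
  · intro A B _ _ _ _ _ _ _ _ hA hB hAB
    rw [Module.finrank_prod] at hAB ⊢
    rw [Nat.cast_add]
    exact (rate_prod_le _ _).trans (add_le_add (hA (by omega)) (hB (by omega)))

omit [IsAlgClosed k] in
theorem isLocalRing_of_basis {ι : Type} [Fintype ι] [DecidableEq ι] {o : ι} {A : Type} [CommRing A]
    [Algebra k A] {v : Module.Basis ι k A} (h1 : v o = 1) (hv : ∀ i, i ≠ o → IsNilpotent (v i)) :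
    IsLocalRing A := by
  have hnt : Nontrivial A := ⟨⟨v o, 0, v.ne_zero o⟩⟩
  have hx : ∀ x : A, ∃ y, IsNilpotent y ∧ x = algebraMap k A (v.repr x o) + y := by
    intro x
    refine ⟨∑ i ∈ Finset.univ.erase o, v.repr x i • v i, ?_, ?_⟩
    · refine isNilpotent_sum fun i hi => ?_
      exact (hv i (Finset.ne_of_mem_erase hi)).smul _
    · conv_lhs => rw [← v.sum_repr x, ← Finset.add_sum_erase _ _ (Finset.mem_univ o), h1]
      rw [Algebra.algebraMap_eq_smul_one]
  refine IsLocalRing.of_isUnit_or_isUnit_one_sub_self fun x => ?_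
  obtain ⟨y, hy, hxy⟩ := hx x
  by_cases h0 : v.repr x o = 0
  · right
    rw [h0, map_zero, zero_add] at hxy
    rw [hxy]
    exact hy.isUnit_one_sub
  · left
    have h1 : IsUnit (algebraMap k A (v.repr x o)) := (isUnit_iff_ne_zero.2 h0).map _
    rw [hxy]
    exact hy.isUnit_add_left_of_commute h1 (Commute.all _ _)

omit [IsAlgClosed k] in
theorem isStr_of_int {m : ℕ} {c : Fin (m + 1) → Fin (m + 1) → Fin (m + 1) → ℤ} {A : Type}
    [CommRing A] [Algebra k A] {v : Module.Basis (Fin (m + 1)) k A} (h : IntStructure c k A v) :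
    SC.Str.IsStr 0 (Int.castRingHom k ∘ fun q : Fin (m + 1) × Fin (m + 1) × Fin (m + 1) =>
      c q.1 q.2.1 q.2.2) A v := h

end lemmas

/-- the three conditions for local schemes of degree `d` -/
theorem local_equiv (K : Type) [Field K] [IsAlgClosed K] [CharZero K] (d : ℕ) (x : ℝ)
    (hx : 0 ≤ x) :
    (LocalRateLe K d x → ∀ η : ℝ, 0 < η → ∃ N : ℕ, ∀ p : ℕ, p.Prime → N ≤ p →
      ∀ (k : Type) [Field k] [IsAlgClosed k] [CharP k p], PowerLe k d (x + η) N) ∧
    ((∀ η : ℝ, 0 < η → ∃ N : ℕ, ∀ B : ℕ, ∃ p : ℕ, p.Prime ∧ B ≤ p ∧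
      ∃ (k : Type) (_ : Field k) (_ : IsAlgClosed k) (_ : CharP k p), PowerLe k d (x + η) N) →
        LocalRateLe K d x) := by
  rcases Nat.eq_zero_or_pos d with rfl | hd
  · refine ⟨fun _ η _ => ⟨0, fun p _ _ k _ _ _ => powerLe_zero _ _⟩, fun _ A _ _ _ _ hA => ?_⟩
    have h1 : 0 < Module.finrank K A := Module.finrank_pos
    omega
  obtain ⟨m, rfl⟩ : ∃ m, d = m + 1 := ⟨d - 1, by omega⟩
  constructor
  · intro h η hη
    obtain ⟨N, hN⟩ := FI.bnd_of_zero m x (fun L _ _ _ B _ _ _ _ hB =>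
      FI.local_zero K L m x (fun A _ _ _ _ hA => h A hA) B hB) η hη
    exact ⟨N, fun p _ hp k _ _ _ => (powerLe_iff m _ N).2 (hN p hp k)⟩
  · intro h A _ _ _ _ hA
    refine le_of_forall_pos_le_add fun η hη => ?_
    obtain ⟨N, hN⟩ := h η hη
    refine FI.zero_of_bnd m (x + η) (by linarith) N (fun B => ?_) K A hA
    obtain ⟨p, _, hp, k, i1, i2, i3, hk⟩ := hN B
    exact ⟨p, hp, k, i1, i2, i3, (powerLe_iff m _ N).1 hk⟩

theorem large_to_infinite {P : ℕ → ∀ (k : Type) [Field k], Prop} {N : ℕ}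
    (h : ∀ p : ℕ, p.Prime → N ≤ p → ∀ (k : Type) [Field k] [IsAlgClosed k] [CharP k p], P N k) :
    ∀ B : ℕ, ∃ p : ℕ, p.Prime ∧ B ≤ p ∧
      ∃ (k : Type) (_ : Field k) (_ : IsAlgClosed k) (_ : CharP k p), P N k := by
  intro B
  obtain ⟨p, hp, hp'⟩ := Nat.exists_infinite_primes (max B N)
  have : Fact p.Prime := ⟨hp'⟩
  have hchar : CharP (AlgebraicClosure (ZMod p)) p :=
    charP_of_injective_algebraMap (algebraMap (ZMod p) (AlgebraicClosure (ZMod p))).injective p
  exact ⟨p, hp', (le_max_left _ _).trans hp, AlgebraicClosure (ZMod p), inferInstance, inferInstance,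
    hchar, h p hp' ((le_max_right _ _).trans hp) _⟩

/-- (1) The growth rate of `Γ`, and Q1 for `Γ`, are invariant under extension of the algebraically closed ground field.
(2) For each degree `d` the statements `all schemes of degree d have growth rate at most x` and `Q1 holds for all schemes of
degree d` depend only on the characteristic of the algebraically closed ground field. (3) Let `K` be algebraically closed of
characteristic zero. All local schemes of degree `d` over `K` have growth rate at most `x ≥ 0` if and only if for every `η > 0`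
there is an `N` such that for all primes `p ≥ N` and all algebraically closed fields `k` of characteristic `p` each local
scheme of degree `d` over `k` has a power `n`, `1 ≤ n ≤ N`, with `d ^ n + δ(Γ^n) ≤ (x + η) ^ n`; and if and only if this holds for
every `η > 0`, some `N`, infinitely many primes `p` and one field `k` for each of them. (4) Q1 holds for all schemes of degree
at most `d` over `K` if and only if these conditions hold for all `d' ≤ d` and `x = d'`. (5) Reduction of a local scheme over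
the integers modulo large primes does not increase the growth rate by more than `η`. -/
theorem result :
    (∀ (K L : Type) [Field K] [IsAlgClosed K] [Field L] [IsAlgClosed L] [Algebra K L] (A : Type)
      [CommRing A] [Algebra K A] [Module.Finite K A] [Nontrivial A],
        rate L (L ⊗[K] A) = rate K A ∧ (QOne L (L ⊗[K] A) ↔ QOne K A)) ∧
    (∀ (p : ℕ) (K L : Type) [Field K] [IsAlgClosed K] [CharP K p] [Field L] [IsAlgClosed L]
      [CharP L p] (d : ℕ), (∀ x : ℝ, RateLe K d x ↔ RateLe L d x) ∧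
        (QDegree K d ↔ QDegree L d)) ∧
    (∀ (K : Type) [Field K] [IsAlgClosed K] [CharZero K] (d : ℕ) (x : ℝ), 0 ≤ x →
      (LocalRateLe K d x ↔ ∀ η : ℝ, 0 < η → ∃ N : ℕ, ∀ p : ℕ, p.Prime → N ≤ p →
        ∀ (k : Type) [Field k] [IsAlgClosed k] [CharP k p], PowerLe k d (x + η) N) ∧
      (LocalRateLe K d x ↔ ∀ η : ℝ, 0 < η → ∃ N : ℕ, ∀ B : ℕ, ∃ p : ℕ, p.Prime ∧ B ≤ p ∧
        ∃ (k : Type) (_ : Field k) (_ : IsAlgClosed k) (_ : CharP k p),
          PowerLe k d (x + η) N)) ∧
    (∀ (K : Type) [Field K] [IsAlgClosed K] [CharZero K] (d : ℕ),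
      ((∀ d' ≤ d, QDegree K d') ↔ ∀ η : ℝ, 0 < η → ∃ N : ℕ, ∀ p : ℕ, p.Prime → N ≤ p →
        ∀ (k : Type) [Field k] [IsAlgClosed k] [CharP k p], ∀ d' ≤ d, PowerLe k d' (d' + η) N) ∧
      ((∀ d' ≤ d, QDegree K d') ↔ ∀ η : ℝ, 0 < η → ∃ N : ℕ, ∀ B : ℕ, ∃ p : ℕ, p.Prime ∧ B ≤ p ∧
        ∃ (k : Type) (_ : Field k) (_ : IsAlgClosed k) (_ : CharP k p),
          ∀ d' ≤ d, PowerLe k d' (d' + η) N)) ∧
    (∀ (m : ℕ) (c : Fin (m + 1) → Fin (m + 1) → Fin (m + 1) → ℤ) (K : Type) [Field K]
      [IsAlgClosed K] [CharZero K] (B : Type) [CommRing B] [Algebra K B]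
      (w : Module.Basis (Fin (m + 1)) K B), IntStructure c K B w →
        (∀ i, i ≠ 0 → IsNilpotent (w i)) → ∀ η : ℝ, 0 < η → ∃ N : ℕ, ∀ p : ℕ, p.Prime → N ≤ p →
          ∀ (k : Type) [Field k] [IsAlgClosed k] [CharP k p] (A : Type) [CommRing A] [Algebra k A]
            (v : Module.Basis (Fin (m + 1)) k A), IntStructure c k A v →
              rate k A ≤ rate K B + η) := by
  refine ⟨?_, ?_, ?_, ?_, ?_⟩
  · intro K L _ _ _ _ _ A _ _ _ _
    exact ⟨FI.rate_tensor L A, FI.qOne_tensor L A⟩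
  · intro p K L _ _ _ _ _ _ d
    have h1 : ∀ x : ℝ, RateLe K d x ↔ RateLe L d x := fun x =>
      ⟨fun h B _ _ _ _ hB => FI.all_char K L p d x (fun A _ _ _ _ hA => h A hA) B hB,
        fun h A _ _ _ _ hA => FI.all_char L K p d x (fun B _ _ _ _ hB => h B hB) A hA⟩
    exact ⟨h1, by rw [qDegree_iff, qDegree_iff, h1]⟩
  · intro K _ _ _ d x hx
    obtain ⟨h1, h2⟩ := local_equiv K d x hx
    have h3 : (∀ η : ℝ, 0 < η → ∃ N : ℕ, ∀ p : ℕ, p.Prime → N ≤ p →
        ∀ (k : Type) [Field k] [IsAlgClosed k] [CharP k p], PowerLe k d (x + η) N) →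
        ∀ η : ℝ, 0 < η → ∃ N : ℕ, ∀ B : ℕ, ∃ p : ℕ, p.Prime ∧ B ≤ p ∧
        ∃ (k : Type) (_ : Field k) (_ : IsAlgClosed k) (_ : CharP k p),
          PowerLe k d (x + η) N := by
      intro h η hη
      obtain ⟨N, hN⟩ := h η hη
      exact ⟨N, large_to_infinite (P := fun N k _ => PowerLe k d (x + η) N) hN⟩
    exact ⟨⟨h1, fun h => h2 (h3 h)⟩, ⟨fun h => h3 (h1 h), h2⟩⟩
  · intro K _ _ _ d
    have h1 : (∀ d' ≤ d, QDegree K d') → ∀ η : ℝ, 0 < η → ∃ N : ℕ, ∀ p : ℕ, p.Prime → N ≤ p →
        ∀ (k : Type) [Field k] [IsAlgClosed k] [CharP k p], ∀ d' ≤ d,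
          PowerLe k d' (d' + η) N := by
      intro h η hη
      have h2 : ∀ d', ∃ N : ℕ, d' ≤ d → ∀ p : ℕ, p.Prime → N ≤ p →
          ∀ (k : Type) [Field k] [IsAlgClosed k] [CharP k p], PowerLe k d' (d' + η) N := by
        intro d'
        by_cases hd : d' ≤ d
        · have h3 : LocalRateLe K d' d' := fun A _ _ _ _ hA =>
            (qDegree_iff (k := K) d').1 (h d' hd) A hA
          obtain ⟨N, hN⟩ := (local_equiv K d' d' (Nat.cast_nonneg _)).1 h3 η hη
          exact ⟨N, fun _ => hN⟩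
        · exact ⟨0, fun h => absurd h hd⟩
      choose N hN using h2
      refine ⟨∑ i ∈ Finset.range (d + 1), N i, fun p hp hp2 k _ _ _ d' hd => ?_⟩
      have h3 : N d' ≤ ∑ i ∈ Finset.range (d + 1), N i :=
        Finset.single_le_sum (fun _ _ => Nat.zero_le _) (Finset.mem_range.2 (by omega))
      exact (hN d' hd p hp (h3.trans hp2) k).mono h3
    have h2 : (∀ η : ℝ, 0 < η → ∃ N : ℕ, ∀ B : ℕ, ∃ p : ℕ, p.Prime ∧ B ≤ p ∧
        ∃ (k : Type) (_ : Field k) (_ : IsAlgClosed k) (_ : CharP k p),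
          ∀ d' ≤ d, PowerLe k d' (d' + η) N) → ∀ d' ≤ d, QDegree K d' := by
      intro h
      have h3 : ∀ d' ≤ d, LocalRateLe K d' d' := by
        intro d' hd
        refine (local_equiv K d' d' (Nat.cast_nonneg _)).2 fun η hη => ?_
        obtain ⟨N, hN⟩ := h η hη
        refine ⟨N, fun B => ?_⟩
        obtain ⟨p, hp, hp2, k, i1, i2, i3, hk⟩ := hN B
        exact ⟨p, hp, hp2, k, i1, i2, i3, hk d' hd⟩
      intro d' hd
      rw [qDegree_iff]
      intro A _ _ _ _ hA
      have h4 := rate_le_of_local d h3 A (by omega)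
      rw [hA] at h4
      exact h4
    have h3 : (∀ η : ℝ, 0 < η → ∃ N : ℕ, ∀ p : ℕ, p.Prime → N ≤ p →
        ∀ (k : Type) [Field k] [IsAlgClosed k] [CharP k p], ∀ d' ≤ d,
          PowerLe k d' (d' + η) N) → ∀ η : ℝ, 0 < η → ∃ N : ℕ, ∀ B : ℕ, ∃ p : ℕ, p.Prime ∧ B ≤ p ∧
        ∃ (k : Type) (_ : Field k) (_ : IsAlgClosed k) (_ : CharP k p),
          ∀ d' ≤ d, PowerLe k d' (d' + η) N := by
      intro h η hη
      obtain ⟨N, hN⟩ := h η hη
      exact ⟨N, large_to_infinite (P := fun N k _ => ∀ d' ≤ d, PowerLe k d' (d' + η) N) hN⟩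
    exact ⟨⟨h1, fun h => h2 (h3 h)⟩, ⟨fun h => h3 (h1 h), h2⟩⟩
  · intro m c K _ _ _ B _ _ w hw hnil η hη
    have hfin : Module.Finite K B := Module.Finite.of_basis w
    have hloc : IsLocalRing B := isLocalRing_of_basis hw.1 hnil
    have hrk : Module.finrank K B = m + 1 := by
      rw [Module.finrank_eq_card_basis w, Fintype.card_fin]
    have hstr := isStr_of_int hw
    have hn : FI.Nilp (0 : Fin (m + 1)) (Int.castRingHom K ∘
        fun q : Fin (m + 1) × Fin (m + 1) × Fin (m + 1) => c q.1 q.2.1 q.2.2) (m + 1) := by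
      refine FI.nilp_of_nil hstr fun s hs => ?_
      refine SC.nil_of_local (FI.crd0 0 w) (fun i => ?_) (m + 1) hrk.le s hs
      rw [FI.crd0_X, IsLocalRing.mem_maximalIdeal, mem_nonunits_iff]
      exact (hnil i i.2).not_isUnit
    obtain ⟨N, hN⟩ := FI.rate_mod _ hstr hn η hη
    exact ⟨N, fun p _ hp k _ _ _ A _ _ v hv => hN p hp k A v (isStr_of_int hv)⟩

end Pool.Agent.Results.MP_44217d_ag.FieldIndependence
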