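import Mathlib
import Pool.Agent.Q180.SC.Uni

/-!
# Q1 in terms of polynomial interpolation on grids

Let `Γ` be a finite scheme in affine space, contained in the `e`-th infinitesimal neighbourhood
`V((x)^{e+1})` of the origin. A finite set `P` of points covers `Γ^N` if all polynomials of degree at
most `e N` which vanish at the points of `P` vanish on `Γ^N`. The growth rate of the smoothability
defects of the powers of `Γ` is the growth rate of the least numbers of points of covering sets; the
points can be chosen in any grid `Θ × ⋯ × Θ` with `|Θ| > e N`, and the same set works for all `Γ` of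
bounded degree and growth rate.
-/

set_option autoImplicit false

namespace Pool.Agent.Results.MP_44217d_ag.GridPoints

open Pool.Agent.H826R3.SM Pool.Agent.TH671.DU

/-- The restriction of polynomials to the `N`-th power of `Γ = Spec A`; the coordinate functions of
affine space restrict to the elements `φ (X i)` of `A`. -/
noncomputable def restrict {k σ A : Type} [Field k] [CommRing A] [Algebra k A]
    (φ : MvPolynomial σ k →ₐ[k] A) (N : ℕ) : MvPolynomial (Fin N × σ) k →ₐ[k] Pow k A N :=
  MvPolynomial.aeval fun q =>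
    PiTensorProduct.singleAlgHom (R := k) (A := fun _ : Fin N => A) q.1 (φ (MvPolynomial.X q.2))

/-- The finite set `P` of points covers `Γ^N` in degree `h`: every polynomial of degree at most `h`
which vanishes at the points of `P` vanishes on `Γ^N`. -/
def Covers {k σ A : Type} [Field k] [CommRing A] [Algebra k A] (φ : MvPolynomial σ k →ₐ[k] A)
    (N h : ℕ) (P : Finset (Fin N × σ → k)) : Prop :=
  ∀ F : MvPolynomial (Fin N × σ) k, F.totalDegree ≤ h →
    (∀ p ∈ P, MvPolynomial.eval p F = 0) → restrict φ N F = 0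

/-- `Γ = Spec A` is a closed subscheme of affine space (with coordinates `φ (X i)`) which is
contained in the subscheme `V((x)^{e+1})`: all monomials of degree greater than `e` vanish on it. -/
def Fat {k σ A : Type} [Field k] [CommRing A] [Algebra k A] (e : ℕ)
    (φ : MvPolynomial σ k →ₐ[k] A) : Prop :=
  Function.Surjective φ ∧ ∀ s : σ →₀ ℕ, e < s.degree → φ (MvPolynomial.monomial s 1) = 0

/-- `k` is algebraically closed, `Γ = Spec A` a nonempty finite scheme. (1) If `Γ` is a subscheme of
`V((x)^{e+1})` and `P` covers `Γ^N` in degree `e N`, then `P` has at least `deg Γ^N` points, and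
`deg Γ^N + δ(Γ^N) ≤ (e N + 1) |P|`. (2) For all `m`, `d`, `e`, real `x` and `η > 0` there is `C` such
that for all `N` and all finite sets `Θ` with more than `e N` elements there is a set `P` of at most
`C (x + η)^N` points with coordinates in `Θ` which covers the `N`-th powers of all finite schemes
`Γ` in affine `m`-space of degree at most `d` and growth rate at most `x`, in degree `e N`. (3) The
growth rate of a subscheme `Γ` of `V((x)^{e+1})` is at most `x` if and only if for every `η > 0` there
is `C` such that every `Γ^N` is covered in degree `e N` by at most `C (x + η)^N` points; Q1 holds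
for `Γ` if and only if this is true for `x = deg Γ`. (4) Q1 holds for all finite schemes if and only
if for all `m`, `e`, `d` and `η > 0` there is `C` such that for all `N` and all `Θ` with more than
`e N` elements there is a set of at most `C (d + η)^N` points with coordinates in `Θ` which covers
in degree `e N` the `N`-th powers of all subschemes of `V((x)^{e+1})` of degree at most `d` in affine
`m`-space. -/
theorem result (k : Type) [Field k] [IsAlgClosed k] :
    (∀ (m e : ℕ) (A : Type) [CommRing A] [Algebra k A] [Module.Finite k A] [Nontrivial A]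
      (φ : MvPolynomial (Fin m) k →ₐ[k] A), Fat e φ → ∀ (N : ℕ) (P : Finset (Fin N × Fin m → k)),
        Covers φ N (e * N) P → Module.finrank k A ^ N ≤ P.card ∧
          Module.finrank k A ^ N + defect k (Pow k A N) ≤ (e * N + 1) * P.card) ∧
    (∀ (m d e : ℕ) (x η : ℝ), 0 < η → ∃ C : ℝ, ∀ (N : ℕ) (Θ : Finset k), e * N < Θ.card →
      ∃ P : Finset (Fin N × Fin m → k), (∀ p ∈ P, ∀ q, p q ∈ Θ) ∧
        (P.card : ℝ) ≤ C * (x + η) ^ N ∧
        ∀ (A : Type) [CommRing A] [Algebra k A] [Module.Finite k A] [Nontrivial A]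
          (φ : MvPolynomial (Fin m) k →ₐ[k] A), Module.finrank k A ≤ d → rate k A ≤ x →
            Covers φ N (e * N) P) ∧
    (∀ (m e : ℕ) (A : Type) [CommRing A] [Algebra k A] [Module.Finite k A] [Nontrivial A]
      (φ : MvPolynomial (Fin m) k →ₐ[k] A), Fat e φ →
        (∀ x : ℝ, rate k A ≤ x ↔ ∀ η : ℝ, 0 < η → ∃ C : ℝ, ∀ N : ℕ,
          ∃ P : Finset (Fin N × Fin m → k), Covers φ N (e * N) P ∧
            (P.card : ℝ) ≤ C * (x + η) ^ N) ∧
        (QOne k A ↔ ∀ η : ℝ, 0 < η → ∃ C : ℝ, ∀ N : ℕ,
          ∃ P : Finset (Fin N × Fin m → k), Covers φ N (e * N) P ∧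
            (P.card : ℝ) ≤ C * (Module.finrank k A + η) ^ N)) ∧
    ((∀ (A : Type) [CommRing A] [Algebra k A] [Module.Finite k A] [Nontrivial A], QOne k A) ↔
      ∀ (m e d : ℕ) (η : ℝ), 0 < η → ∃ C : ℝ, ∀ (N : ℕ) (Θ : Finset k), e * N < Θ.card →
        ∃ P : Finset (Fin N × Fin m → k), (∀ p ∈ P, ∀ q, p q ∈ Θ) ∧
          (P.card : ℝ) ≤ C * (d + η) ^ N ∧
          ∀ (A : Type) [CommRing A] [Algebra k A] [Module.Finite k A] [Nontrivial A]
            (φ : MvPolynomial (Fin m) k →ₐ[k] A), Fat e φ → Module.finrank k A ≤ d →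
              Covers φ N (e * N) P) := by
  have hinf : Infinite k := IsAlgClosed.instInfinite
  have key : ∀ (m e : ℕ) (A : Type) [CommRing A] [Algebra k A] [Module.Finite k A] [Nontrivial A]
      (φ : MvPolynomial (Fin m) k →ₐ[k] A), Fat e φ →
        ∀ x : ℝ, rate k A ≤ x ↔ ∀ η : ℝ, 0 < η → ∃ C : ℝ, ∀ N : ℕ,
          ∃ P : Finset (Fin N × Fin m → k), Covers φ N (e * N) P ∧
            (P.card : ℝ) ≤ C * (x + η) ^ N := by
    intro m e A _ _ _ _ φ hφ x
    refine ⟨fun h η hη => ?_,
      fun h => Pool.Agent.Q180.SC.rate_le_of_covers φ hφ.1 e hφ.2 x h⟩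
    obtain ⟨C, hC, hU⟩ := Pool.Agent.Q180.SC.exists_universal (k := k) (σ := Fin m)
      (Module.finrank k A) e x η hη
    refine ⟨C, fun N => ?_⟩
    obtain ⟨Θ, -, hΘ⟩ := Set.Infinite.exists_subset_card_eq (Set.infinite_univ (α := k))
      (e * N + 1)
    obtain ⟨P, -, hP2, hP3⟩ := hU N Θ (by omega)
    exact ⟨P, hP3 A φ le_rfl h, hP2⟩
  refine ⟨?_, ?_, ?_, ?_⟩
  · intro m e A _ _ _ _ φ hφ N P hP
    refine ⟨Pool.Agent.Q180.SC.pow_le_card φ hφ.1 e hφ.2 N P hP, ?_⟩
    have h1 := mdeg_le (Pool.Agent.Q180.SC.fam_of_covers φ hφ.1 e hφ.2 N P hP)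
    have h2 := Pool.Agent.Q180.SC.finrank_add_eq (k := k) A N
    have h3 : Module.finrank k A ^ N + defect k (Pow k A N) = mdeg k (Pow k A N) := by
      exact_mod_cast h2
    rw [h3]
    exact h1
  · intro m d e x η hη
    obtain ⟨C, -, h⟩ := Pool.Agent.Q180.SC.exists_universal (k := k) (σ := Fin m) d e x η hη
    exact ⟨C, h⟩
  · intro m e A _ _ _ _ φ hφ
    refine ⟨key m e A φ hφ, ?_⟩
    rw [qOne_iff_rate]
    rw [← key m e A φ hφ]
    exact ⟨fun h => h.le, fun h => le_antisymm h (finrank_le_rate A)⟩
  · constructor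
    · intro h m e d η hη
      obtain ⟨C, -, hU⟩ := Pool.Agent.Q180.SC.exists_universal (k := k) (σ := Fin m) d e d η hη
      refine ⟨C, fun N Θ hΘ => ?_⟩
      obtain ⟨P, hP1, hP2, hP3⟩ := hU N Θ hΘ
      refine ⟨P, hP1, hP2, fun A _ _ _ _ φ _ hA => hP3 A φ hA ?_⟩
      rw [(qOne_iff_rate (k := k) A).1 (h A)]
      exact_mod_cast hA
    · intro h A _ _ _ _
      refine qOne_of_local (k := k) (fun B _ _ _ _ => ?_) (Module.finrank k A) A rfl
      obtain ⟨χ⟩ := Pool.Agent.Q180.SC.exists_aug (k := k) B
      let v := Module.finBasis k B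
      let a : Fin (Module.finrank k B) → k := fun i => χ (v i)
      have hX : ∀ i, Pool.Agent.Q180.SC.Str.crd a v (MvPolynomial.X i) ∈
          IsLocalRing.maximalIdeal B := by
        intro i
        apply Pool.Agent.Q180.SC.aug_mem χ
        rw [Pool.Agent.Q180.SC.Str.crd_X, map_sub, AlgHom.commutes]
        exact sub_self _
      have hfat : Fat (Module.finrank k B) (Pool.Agent.Q180.SC.Str.crd a v) :=
        ⟨Pool.Agent.Q180.SC.Str.crd_surjective a v,
          Pool.Agent.Q180.SC.nil_of_local _ hX _ le_rfl⟩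
      rw [qOne_iff_rate]
      refine le_antisymm ((key _ _ B _ hfat _).2 fun η hη => ?_) (finrank_le_rate B)
      obtain ⟨C, hC⟩ := h (Module.finrank k B) (Module.finrank k B) (Module.finrank k B) η hη
      refine ⟨C, fun N => ?_⟩
      obtain ⟨Θ, -, hΘ⟩ := Set.Infinite.exists_subset_card_eq (Set.infinite_univ (α := k))
        (Module.finrank k B * N + 1)
      obtain ⟨P, -, hP2, hP3⟩ := hC N Θ (by omega)
      exact ⟨P, hP3 B _ hfat le_rfl, hP2⟩

end Pool.Agent.Results.MP_44217d_ag.GridPoints
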