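import Mathlib
import Pool.Agent.Q180.SC.LimZ

/-!
# The growth rate of the smoothability defects is lower semicontinuous

For a finite scheme `Γ` over an algebraically closed field let `rate Γ` be the limit (which is also
the infimum over `n ≥ 1`) of `(deg Γ^n + δ(Γ^n))^{1/n}`; Q1 for `Γ` says that `rate Γ = deg Γ`. We
prove that, for all `d` and all real `x`, the condition `rate Γ ≤ x` is a closed condition in the
variety of all algebra structures of dimension `d + 1` (hence also in the Hilbert schemes of
points). In particular Q1 is a closed condition.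
-/

set_option autoImplicit false

namespace Pool.Agent.Results.MP_44217d_ag.Semicontinuity

open Pool.Agent.H826R3.SM Pool.Agent.TH671.DU

/-- The triples of indices of the structure constants of an algebra of dimension `d + 1`. -/
abbrev Idx (d : ℕ) : Type := Fin (d + 1) × Fin (d + 1) × Fin (d + 1)

/-- `v` is a basis of the commutative `k`-algebra `A` with first element `1`, and `c` is the point
of affine space whose coordinates are the structure constants of `A` with respect to `v`:
`v i * v j = ∑ l, c (i, j, l) • v l`. -/
def IsStructure {k : Type} [Field k] {d : ℕ} (c : Idx d → k) (A : Type) [CommRing A] [Algebra k A]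
    (v : Module.Basis (Fin (d + 1)) k A) : Prop :=
  v 0 = 1 ∧ ∀ i j, v i * v j = ∑ l, c (i, j, l) • v l

/-- The point `c` of affine space lies in the Zariski closure of the set `S`: all polynomials which
vanish on `S` vanish at `c`. -/
def InZariskiClosure {k : Type} [Field k] {τ : Type} (S : Set (τ → k)) (c : τ → k) : Prop :=
  ∀ P : MvPolynomial τ k, (∀ s ∈ S, MvPolynomial.eval s P = 0) → MvPolynomial.eval c P = 0

/-- `k` is algebraically closed. (1) For every `d` and every real `x` there are finitely many
polynomials in the structure constants such that an algebra `A` of dimension `d + 1` satisfies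
`rate A ≤ x` if and only if they vanish at its structure constants with respect to some (or any)
basis with first element `1`. (2) In particular this holds for Q1. (3) If Q1 holds for algebras
with the structure constants `s`, `s ∈ S`, then Q1 holds for all algebras whose structure constants
lie in the Zariski closure of `S`, for every set `S`; more generally this holds for
`rate A ≤ x`. (4) The same for a family of algebras whose structure constants are polynomials `F q`
in parameters: if `rate ≤ x` holds for the parameters in `S` then it holds in the Zariski closure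
of `S`. -/
theorem result (k : Type) [Field k] [IsAlgClosed k] (d : ℕ) :
    (∀ x : ℝ, ∃ P : Finset (MvPolynomial (Idx d) k), ∀ (c : Idx d → k) (A : Type) [CommRing A]
      [Algebra k A] (v : Module.Basis (Fin (d + 1)) k A), IsStructure c A v →
        (rate k A ≤ x ↔ ∀ p ∈ P, MvPolynomial.eval c p = 0)) ∧
    (∃ P : Finset (MvPolynomial (Idx d) k), ∀ (c : Idx d → k) (A : Type) [CommRing A]
      [Algebra k A] (v : Module.Basis (Fin (d + 1)) k A), IsStructure c A v →
        (QOne k A ↔ ∀ p ∈ P, MvPolynomial.eval c p = 0)) ∧
    (∀ S : Set (Idx d → k),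
      (∀ s ∈ S, ∃ (A : Type) (_ : CommRing A) (_ : Algebra k A)
        (v : Module.Basis (Fin (d + 1)) k A), IsStructure s A v ∧ QOne k A) →
      ∀ (c : Idx d → k) (A : Type) [CommRing A] [Algebra k A]
        (v : Module.Basis (Fin (d + 1)) k A), IsStructure c A v → InZariskiClosure S c →
          QOne k A) ∧
    (∀ (τ : Type) (F : Idx d → MvPolynomial τ k) (x : ℝ) (S : Set (τ → k)),
      (∀ s ∈ S, ∃ (A : Type) (_ : CommRing A) (_ : Algebra k A)
        (v : Module.Basis (Fin (d + 1)) k A),
          IsStructure (fun q => MvPolynomial.eval s (F q)) A v ∧ rate k A ≤ x) →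
      ∀ (z : τ → k) (A : Type) [CommRing A] [Algebra k A]
        (v : Module.Basis (Fin (d + 1)) k A), IsStructure (fun q => MvPolynomial.eval z (F q)) A v →
          InZariskiClosure S z → rate k A ≤ x) := by
  have hq : ∀ (c : Idx d → k) (A : Type) [CommRing A] [Algebra k A]
      (v : Module.Basis (Fin (d + 1)) k A), IsStructure c A v →
        (QOne k A ↔ rate k A ≤ (d + 1 : ℕ)) := by
    intro c A _ _ v h
    have hfin : Module.Finite k A := Module.Finite.of_basis v
    have hr : Module.finrank k A = d + 1 := by
      rw [Module.finrank_eq_card_basis v, Fintype.card_fin]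
    have hnt : Nontrivial A := Module.nontrivial_of_finrank_pos (R := k) (by rw [hr]; omega)
    rw [qOne_iff_rate, hr]
    refine ⟨fun h => h.le, fun h => le_antisymm h ?_⟩
    have h1 := finrank_le_rate (k := k) A
    rw [hr] at h1
    exact h1
  refine ⟨fun x => Pool.Agent.Q180.SC.Str.exists_polynomials 0 x, ?_, ?_, ?_⟩
  · obtain ⟨P, hP⟩ := Pool.Agent.Q180.SC.Str.exists_polynomials (k := k)
      (0 : Fin (d + 1)) ((d + 1 : ℕ) : ℝ)
    exact ⟨P, fun c A _ _ v h => (hq c A v h).trans (hP c A v h)⟩
  · intro S hS c A _ _ v h hc
    refine (hq c A v h).2 (Pool.Agent.Q180.SC.Str.rate_limit 0 (S := S) (fun s hs => ?_) hc h)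
    obtain ⟨B, i1, i2, w, h1, h2⟩ := hS s hs
    exact ⟨B, i1, i2, w, h1, (hq s B w h1).1 h2⟩
  · intro τ F x S hS z A _ _ v h hc
    refine Pool.Agent.Q180.SC.Str.rate_limit 0 (S := Pool.Agent.Q180.SC.evalAt F '' S) ?_
      (Pool.Agent.Q180.SC.closure_image F hc) h
    rintro _ ⟨s, hs, rfl⟩
    exact hS s hs

end Pool.Agent.Results.MP_44217d_ag.Semicontinuity
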