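import Mathlib
import Pool.Agent.Q180.SC.Fin

/-!
# The growth rates of the smoothability defects are well-ordered

For a finite scheme `Γ` over an algebraically closed field let `rate Γ` be the limit (which is also
the infimum over `n ≥ 1`) of `(deg Γ^n + δ(Γ^n))^{1/n}`; Q1 for `Γ` says that `rate Γ = deg Γ`. The
growth rates of the schemes of degree at most `d` form a well-ordered set, and the bounds for the
powers are uniform. Hence there is a gap above `d`: Q1 for a scheme of degree `d` is equivalent to
one strict inequality for one power, and if Q1 holds for all schemes of degree `d` then the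
convergence in Q1 is uniform.
-/

set_option autoImplicit false

namespace Pool.Agent.Results.MP_44217d_ag.WellOrderedRates

open Pool.Agent.H826R3.SM Pool.Agent.TH671.DU

/-- The growth rates of the finite schemes of degree at most `d` over `k`. -/
def Rates (k : Type) [Field k] (d : ℕ) : Set ℝ :=
  {r : ℝ | ∃ (A : Type) (_ : CommRing A) (_ : Algebra k A), Module.Finite k A ∧ Nontrivial A ∧
    Module.finrank k A ≤ d ∧ rate k A = r}

/-- `k` is algebraically closed. (1) The growth rates of the finite schemes of degree at most `d`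
are well-ordered, and all growth rates form a countable set. (2) The gap: there is `ε > 0`,
depending only on `d` and `k`, such that Q1 holds for a scheme `Spec A` of degree `d` if and only
if `rate A < d + ε`, and if and only if `d^n + δ(Γ^n) < (d + ε)^n` for some `n ≥ 1`. (3) Uniformity:
for all real `x` and `η > 0` there is `C` with `d^n + δ(Γ^n) ≤ C (x + η)^n` for all `n` and all
schemes of degree at most `d` with growth rate at most `x`. (4) If Q1 holds for all schemes of
degree `d`, then the convergence in Q1 is uniform for them. -/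
theorem result (k : Type) [Field k] [IsAlgClosed k] (d : ℕ) :
    ((Rates k d).IsWF ∧ (⋃ d : ℕ, Rates k d).Countable) ∧
    (∃ ε : ℝ, 0 < ε ∧
      ∀ (A : Type) [CommRing A] [Algebra k A] [Module.Finite k A] [Nontrivial A],
        Module.finrank k A = d → (QOne k A ↔ rate k A < d + ε) ∧
          (QOne k A ↔ ∃ n : ℕ, 1 ≤ n ∧ (d : ℝ) ^ n + defect k (Pow k A n) < (d + ε) ^ n)) ∧
    (∀ x η : ℝ, 0 < η → ∃ C : ℝ,
      ∀ (A : Type) [CommRing A] [Algebra k A] [Module.Finite k A] [Nontrivial A],
        Module.finrank k A ≤ d → rate k A ≤ x → ∀ n : ℕ,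
          (Module.finrank k A : ℝ) ^ n + defect k (Pow k A n) ≤ C * (x + η) ^ n) ∧
    ((∀ (A : Type) [CommRing A] [Algebra k A] [Module.Finite k A] [Nontrivial A],
      Module.finrank k A = d → QOne k A) → ∀ ε : ℝ, 0 < ε → ∀ θ : ℝ, 0 < θ → ∃ N : ℕ,
        ∀ n : ℕ, N ≤ n → ∀ (A : Type) [CommRing A] [Algebra k A] [Module.Finite k A]
          [Nontrivial A], Module.finrank k A = d →
            (defect k (Pow k A n) : ℝ) / (Module.finrank k A : ℝ) ^ ((1 + ε) * (n : ℝ)) < θ) := by
  refine ⟨⟨Pool.Agent.Q180.SC.rates_isWF d, ?_⟩, ?_, ?_, ?_⟩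
  · exact Set.countable_iUnion fun d : ℕ =>
      Pool.Agent.Q180.SC.countable_of_isWF (Pool.Agent.Q180.SC.rates_isWF (k := k) d)
  · obtain ⟨ε₁, h1, h2⟩ := Pool.Agent.Q180.SC.gap (k := k) d
    obtain ⟨ε₂, h3, h4⟩ := Pool.Agent.Q180.SC.certificate (k := k) d
    refine ⟨min ε₁ ε₂, lt_min h1 h3, fun A _ _ _ _ hA => ⟨?_, ?_⟩⟩
    · rw [qOne_iff_rate, hA]
      refine ⟨fun h => ?_, fun h => h2 A hA (h.trans_le ?_)⟩
      · rw [h]
        exact lt_add_of_pos_right _ (lt_min h1 h3)
      · exact add_le_add_right (min_le_left _ _) _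
    · constructor
      · intro hq
        have hr := (qOne_iff_rate (k := k) A).1 hq
        have hlt : rate k A < d + min ε₁ ε₂ := by
          rw [hr, hA]
          exact lt_add_of_pos_right _ (lt_min h1 h3)
        -- choose a power
        obtain ⟨C, hC, hG⟩ := rate_growth (k := k) A (min ε₁ ε₂ / 2) (half_pos (lt_min h1 h3))
        have hd : 0 < d := by
          rw [← hA]
          exact Module.finrank_pos
        have hd0 : (0 : ℝ) < d := by exact_mod_cast hd
        have hm : 0 < min ε₁ ε₂ := lt_min h1 h3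
        obtain ⟨n, hn, h5⟩ := Pool.Agent.Q180.SC.exists_exp 0 0 (C + 1) (by positivity)
          (show (0 : ℝ) < d + min ε₁ ε₂ / 2 by linarith)
          (show (d : ℝ) + min ε₁ ε₂ / 2 < d + min ε₁ ε₂ by linarith)
        refine ⟨n, hn, ?_⟩
        have h6 := Pool.Agent.Q180.SC.finrank_add_eq (k := k) A n
        rw [hA] at h6
        rw [h6]
        refine (hG n).trans_lt ?_
        rw [hr, hA]
        rw [pow_zero, mul_one, add_zero] at h5
        refine lt_of_lt_of_le ?_ h5
        have h7 : (0 : ℝ) < ((d : ℝ) + min ε₁ ε₂ / 2) ^ n := by positivity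
        nlinarith
      · rintro ⟨n, hn, h5⟩
        refine (h4 A hA).2 ⟨n, hn, h5.trans_le ?_⟩
        have hm : 0 < min ε₁ ε₂ := lt_min h1 h3
        refine pow_le_pow_left₀ (by positivity) ?_ n
        exact add_le_add_right (min_le_right _ _) _
  · intro x η hη
    obtain ⟨C, hC, h⟩ := Pool.Agent.Q180.SC.uniform_degree (k := k) d x η hη
    exact ⟨C, fun A _ _ _ _ h1 h2 n => h A h1 h2 n⟩
  · intro h ε hε θ hθ
    exact Pool.Agent.Q180.SC.uniform_qOne d h ε hε θ hθ

end Pool.Agent.Results.MP_44217d_ag.WellOrderedRates
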